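import Pool.Agent.Y931.BP.Key
import Pool.Agent.TH957.ZM.Prime

/-!
# A polynomial simultaneous measure of irrationality for `β(2)`, `β(4)`
-/

open Polynomial Pool.Agent.H337R2 Filter Topology Pool.Agent.H216R2.BB Pool.Agent.H256R2.BM

namespace Pool.Agent.Y931.BP

noncomputable section

set_option autoImplicit false

/-- Catalan's constant -/
abbrev GG2 : ℝ := ∑' j : ℕ, (-1 : ℝ) ^ j / (2 * (j : ℝ) + 1) ^ 2

/-- `β(4)` -/
abbrev GG4 : ℝ := ∑' j : ℕ, (-1 : ℝ) ^ j / (2 * (j : ℝ) + 1) ^ 4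

/-- the lower bound at one prime -/
theorem core : ∃ n0 : ℕ, ∀ n : ℕ, n0 ≤ n → n.Prime → n % 24 = 1 → ∀ q : ℕ, 0 < q → ¬ n ∣ q →
    69 / 10 * Real.log q ≤ n → ∀ a b : ℤ,
    Real.exp (-(22 * n)) / 16 < max |GG2 - (a : ℝ) / (q : ℝ)| |GG4 - (b : ℝ) / (q : ℝ)| := by
  obtain ⟨n0, hkey⟩ := key
  refine ⟨n0, fun n hn hnp hn24 q hq0 hnq hlog a b => ?_⟩
  by_contra hcon
  rw [not_lt] at hcon
  have hqr : (0 : ℝ) < q := by exact_mod_cast hq0
  have hqq : (q : ℚ) ≠ 0 := by exact_mod_cast hq0.ne'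
  set u : ℕ → ℚ := fun i => if i = 2 then 4 * (a : ℚ) / q else if i = 4 then 16 * (b : ℚ) / q else 0 with hu
  have hUI : UInt q u := by
    refine ⟨hq0, fun i => ?_⟩
    by_cases h2 : i = 2
    · refine ⟨4 * a, ?_⟩
      simp only [hu, h2, if_true]
      push_cast
      field_simp
    · by_cases h4 : i = 4
      · refine ⟨16 * b, ?_⟩
        simp only [hu, h4]
        norm_num
        field_simp
      · refine ⟨0, ?_⟩
        simp only [hu, if_neg h2, if_neg h4]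
        simp
  have hE : 0 < Real.exp (-(22 * (n : ℝ))) := Real.exp_pos _
  refine hkey q u hUI n hn hnp hn24 hnq hlog ⟨?_, ?_⟩
  · have e : lamB 2 - (u 2 : ℝ) = 4 * (GG2 - (a : ℝ) / (q : ℝ)) := by
      rw [lamB_even (le_refl 2)]
      simp only [hu, if_true]
      push_cast
      ring
    rw [e, abs_mul, abs_of_pos (by norm_num : (0 : ℝ) < 4)]
    have h1 := (le_max_left _ _).trans hcon
    linarith
  · have e : lamB 4 - (u 4 : ℝ) = 16 * (GG4 - (b : ℝ) / (q : ℝ)) := by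
      rw [lamB_even (by norm_num : 2 ≤ 4)]
      have hu4 : u 4 = 16 * (b : ℚ) / q := by simp [hu]
      rw [hu4]
      push_cast
      ring
    rw [e, abs_mul, abs_of_pos (by norm_num : (0 : ℝ) < 16)]
    have h1 := (le_max_right _ _).trans hcon
    linarith

lemma log_ge (M : ℝ) : ∃ q0 : ℕ, 0 < q0 ∧ ∀ q : ℕ, q0 ≤ q → M ≤ Real.log q := by
  have ev : ∀ᶠ q : ℕ in atTop, M ≤ Real.log q :=
    (Real.tendsto_log_atTop.comp (tendsto_natCast_atTop_atTop (R := ℝ))).eventually_ge_atTop _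
  obtain ⟨q1, hq1⟩ := eventually_atTop.1 ev
  exact ⟨q1 + 1, by omega, fun q hq => hq1 q (by omega)⟩

/-- a prime which does not divide `q₁`, just above `(69/10) log (q₁ q₂) + 8 log q₁` at most -/
lemma primes : ∃ X1 : ℕ, ∀ X : ℕ, X1 ≤ X → ∀ j : ℕ, j < 1001 → ∀ Q : ℕ, 0 < Q →
    Real.log Q ≤ (j : ℝ) / 6900 * X →
    ∃ p : ℕ, p.Prime ∧ (p : ZMod 24) = 1 ∧ X < p ∧ (p : ℝ) ≤ (1 + (j : ℝ) / 6900 * 8 + 1 / 1000) * X ∧ ¬ p ∣ Q := by
  have hφ : ((Nat.totient 24 : ℕ) : ℝ) = 8 := by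
    have : Nat.totient 24 = 8 := by decide
    rw [this]; norm_num
  have h : ∀ j ∈ Finset.range 1001, ∀ᶠ X : ℕ in atTop, ∀ Q : ℕ, 0 < Q → Real.log Q ≤ (j : ℝ) / 6900 * X →
      ∃ p : ℕ, p.Prime ∧ (p : ZMod 24) = 1 ∧ X < p ∧ (p : ℝ) ≤ (1 + (j : ℝ) / 6900 * 8 + 1 / 1000) * X ∧ ¬ p ∣ Q := by
    intro j _
    exact Pool.Agent.TH957.ZM.exists_prime_cls 24 (by norm_num) 1 isUnit_one
      (1 + (j : ℝ) / 6900 * 8 + 1 / 1000) ((j : ℝ) / 6900) (by positivity) (by rw [hφ]; linarith)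
  obtain ⟨X1, hX1⟩ := eventually_atTop.1 ((Filter.eventually_all_finset (Finset.range 1001)).2 h)
  exact ⟨X1, fun X hX j hj => hX1 X hX j (Finset.mem_range.2 hj)⟩

/-- the measure for large denominators -/
theorem big (B : ℕ) : ∃ L0 : ℝ, ∀ q₁ q₂ : ℕ, 0 < q₁ → 0 < q₂ → L0 ≤ Real.log ((q₁ * q₂ : ℕ) : ℝ) →
    (∀ p : ℕ, p.Prime → p ∣ q₂ → p ≤ B) → ∀ a b : ℤ,
    1 / ((q₁ : ℝ) ^ 330 * (q₂ : ℝ) ^ 154) ≤
      max |GG2 - (a : ℝ) / ((q₁ * q₂ : ℕ) : ℝ)| |GG4 - (b : ℝ) / ((q₁ * q₂ : ℕ) : ℝ)| := by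
  obtain ⟨n0, hcore⟩ := core
  obtain ⟨X1, hX1⟩ := primes
  refine ⟨n0 + X1 + B + 40, fun q₁ q₂ h1 h2 hL hB a b => ?_⟩
  have hr1 : (0 : ℝ) < q₁ := by exact_mod_cast h1
  have hr2 : (0 : ℝ) < q₂ := by exact_mod_cast h2
  have hq0 : 0 < q₁ * q₂ := Nat.mul_pos h1 h2
  set L1 := Real.log q₁ with hL1
  set L2 := Real.log q₂ with hL2
  set L := Real.log ((q₁ * q₂ : ℕ) : ℝ) with hLd
  have hLs : L = L1 + L2 := by
    rw [hLd, hL1, hL2]
    push_cast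
    exact Real.log_mul hr1.ne' hr2.ne'
  have hL10 : 0 ≤ L1 := Real.log_nonneg (by exact_mod_cast h1)
  have hL20 : 0 ≤ L2 := Real.log_nonneg (by exact_mod_cast h2)
  have hn0 : (0 : ℝ) ≤ n0 := Nat.cast_nonneg _
  have hX10 : (0 : ℝ) ≤ X1 := Nat.cast_nonneg _
  have hB0 : (0 : ℝ) ≤ B := Nat.cast_nonneg _
  have hL40 : 40 ≤ L := by linarith
  have hL0 : 0 < L := by linarith
  set X : ℕ := ⌈69 / 10 * L⌉₊ with hXd
  have hXl : 69 / 10 * L ≤ X := Nat.le_ceil _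
  have hXu : (X : ℝ) < 69 / 10 * L + 1 := Nat.ceil_lt_add_one (by linarith)
  set j : ℕ := ⌈1000 * (L1 / L)⌉₊ with hj
  have hr0 : 0 ≤ L1 / L := by positivity
  have hr1' : L1 / L ≤ 1 := by rw [div_le_one hL0]; linarith
  have hjl : 1000 * (L1 / L) ≤ j := Nat.le_ceil _
  have hju : (j : ℝ) < 1000 * (L1 / L) + 1 := Nat.ceil_lt_add_one (by positivity)
  have hj1 : j < 1001 := by
    have : (j : ℝ) < 1001 := by linarith
    exact_mod_cast this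
  have hX1X : X1 ≤ X := by
    have : (X1 : ℝ) ≤ X := by linarith
    exact_mod_cast this
  have hlog1 : L1 ≤ (j : ℝ) / 6900 * X := by
    have e : L1 = (1000 * (L1 / L)) / 6900 * (69 / 10 * L) := by field_simp; ring
    calc L1 = (1000 * (L1 / L)) / 6900 * (69 / 10 * L) := e
      _ ≤ (j : ℝ) / 6900 * X := by
          apply mul_le_mul _ hXl (by positivity) (by positivity)
          linarith
  obtain ⟨n, hnp, hn1, hn2, hn3, hn4⟩ := hX1 X hX1X j hj1 q₁ h1 hlog1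
  have hnmod : n % 24 = 1 := by
    have h1 : ((n : ℕ) : ZMod 24) = ((1 : ℕ) : ZMod 24) := by rw [hn1, Nat.cast_one]
    rw [ZMod.natCast_eq_natCast_iff] at h1
    exact h1
  have hnX : (X : ℝ) ≤ n := by exact_mod_cast hn2.le
  have hn0n : n0 ≤ n := by
    have : (n0 : ℝ) ≤ n := by linarith
    exact_mod_cast this
  have hnq : ¬ n ∣ q₁ * q₂ := by
    intro hd
    rcases (Nat.Prime.dvd_mul hnp).1 hd with h | h
    · exact hn4 h
    · have h3 := hB n hnp h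
      have h4 : (n : ℝ) ≤ B := by exact_mod_cast h3
      linarith
  have h := hcore n hn0n hnp hnmod (q₁ * q₂) hq0 hnq (by rw [← hLd]; linarith) a b
  refine le_trans ?_ h.le
  have e2 : 1 / ((q₁ : ℝ) ^ 330 * (q₂ : ℝ) ^ 154) = Real.exp (-(330 * L1 + 154 * L2)) := by
    rw [hL1, hL2, Real.exp_neg, one_div]
    congr 1
    rw [Real.exp_add, show (330 : ℝ) = ((330 : ℕ) : ℝ) by norm_num,
      show (154 : ℝ) = ((154 : ℕ) : ℝ) by norm_num, Real.exp_nat_mul, Real.exp_nat_mul, Real.exp_log hr1,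
      Real.exp_log hr2]
  have e3 : (16 : ℝ) = Real.exp (Real.log 16) := (Real.exp_log (by norm_num)).symm
  have hl16 : Real.log 16 ≤ 3 := by
    have h2 : Real.log 16 = 4 * Real.log 2 := by
      rw [show (16 : ℝ) = 2 ^ 4 by norm_num, Real.log_pow]; push_cast; ring
    have := Real.log_two_lt_d9
    linarith
  rw [e2, e3, ← Real.exp_sub]
  apply Real.exp_le_exp.2
  have hjc : (j : ℝ) / 6900 * 8 * L ≤ 80 / 69 * L1 + 8 / 6900 * L := by
    have h5 : (j : ℝ) * L ≤ 1000 * L1 + L := by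
      calc (j : ℝ) * L ≤ (1000 * (L1 / L) + 1) * L := mul_le_mul_of_nonneg_right hju.le hL0.le
        _ = 1000 * L1 + L := by field_simp
    linarith
  have hlam : 1 + (j : ℝ) / 6900 * 8 + 1 / 1000 ≤ 3 := by
    have : (j : ℝ) ≤ 1001 := by exact_mod_cast hj1.le
    linarith
  have hlam0 : 0 ≤ 1 + (j : ℝ) / 6900 * 8 + 1 / 1000 := by positivity
  have hn5 : (n : ℝ) ≤ (1 + (j : ℝ) / 6900 * 8 + 1 / 1000) * (69 / 10 * L + 1) :=
    hn3.trans (mul_le_mul_of_nonneg_left hXu.le hlam0)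
  have hn6 : (n : ℝ) ≤ 69 / 10 * L + 8 * L1 + (8 / 1000 + 69 / 10000) * L + 3 := by
    calc (n : ℝ) ≤ (1 + (j : ℝ) / 6900 * 8 + 1 / 1000) * (69 / 10 * L + 1) := hn5
      _ = 69 / 10 * L + 69 / 10 * ((j : ℝ) / 6900 * 8 * L) + 69 / 10000 * L + (1 + (j : ℝ) / 6900 * 8 + 1 / 1000) := by
          ring
      _ ≤ _ := by linarith
  linarith

/-- **The polynomial measure.** -/
theorem main (B : ℕ) : ∃ c : ℝ, 0 < c ∧ ∀ q₁ q₂ : ℕ, 0 < q₁ → 0 < q₂ → (∀ p : ℕ, p.Prime → p ∣ q₂ → p ≤ B) →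
    ∀ a b : ℤ, c / ((q₁ : ℝ) ^ 330 * (q₂ : ℝ) ^ 154) ≤
      max |GG2 - (a : ℝ) / ((q₁ : ℝ) * q₂)| |GG4 - (b : ℝ) / ((q₁ : ℝ) * q₂)| := by
  obtain ⟨L0, hbig⟩ := big (B + 2)
  obtain ⟨q0, hq00, hq0⟩ := log_ge L0
  set M : ℕ := 2 ^ q0 with hM
  have hMq : q0 ≤ M := Nat.lt_two_pow_self.le
  have hM0 : 0 < M := by positivity
  have hMr : (0 : ℝ) < M := by exact_mod_cast hM0
  refine ⟨1 / (M : ℝ) ^ 154, by positivity, fun q₁ q₂ h1 h2 hsm a b => ?_⟩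
  have hr1 : (0 : ℝ) < q₁ := by exact_mod_cast h1
  have hr2 : (0 : ℝ) < q₂ := by exact_mod_cast h2
  have h := hbig q₁ (M * q₂) h1 (Nat.mul_pos hM0 h2) (hq0 _ (by
    calc q0 ≤ M := hMq
      _ ≤ q₁ * (M * q₂) := by
        have h3 : 0 < q₁ * q₂ := Nat.mul_pos h1 h2
        calc M ≤ M * (q₁ * q₂) := Nat.le_mul_of_pos_right M h3
          _ = q₁ * (M * q₂) := by ring)) (by
    intro p hp hdvd
    rcases (Nat.Prime.dvd_mul hp).1 hdvd with h3 | h3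
    · have := (Nat.prime_dvd_prime_iff_eq hp Nat.prime_two).1 (hp.dvd_of_dvd_pow h3)
      omega
    · have := hsm p hp h3
      omega) (M * a) (M * b)
  have e1 : (((M : ℤ) * a : ℤ) : ℝ) / ((q₁ * (M * q₂) : ℕ) : ℝ) = (a : ℝ) / ((q₁ : ℝ) * q₂) := by
    push_cast
    field_simp
  have e2 : (((M : ℤ) * b : ℤ) : ℝ) / ((q₁ * (M * q₂) : ℕ) : ℝ) = (b : ℝ) / ((q₁ : ℝ) * q₂) := by
    push_cast
    field_simp
  rw [e1, e2] at h
  refine le_trans (le_of_eq ?_) h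
  rw [Nat.cast_mul, mul_pow, div_div, mul_left_comm]

end

end Pool.Agent.Y931.BP
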