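import Pool.Agent.Y931.BP.Rho
import Pool.Agent.H256R2.BM.BND

/-!
# The determinant at rational points which are exponentially close to `4 β(2)`, `16 β(4)`
-/

open MeasureTheory Filter Topology Complex Polynomial Pool.Agent.H337R2 Pool.Agent.H216R2.BB
  Pool.Agent.H256R2.BM

namespace Pool.Agent.Y931.BP

noncomputable section

set_option autoImplicit false

/-- `u` is close to the true values -/
def Pc (n : ℕ) (u : ℕ → ℚ) : Prop :=
  |lamB 2 - (u 2 : ℝ)| ≤ Real.exp (-(22 * n)) ∧ |lamB 4 - (u 4 : ℝ)| ≤ Real.exp (-(22 * n))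

/-- the size of the perturbation -/
def PEr (n N i : ℕ) : ℝ :=
  1179648 * (n : ℝ) ^ 20 * 2 ^ (10 * n) * Real.exp (-(22 * n)) * ((RR n N i : ℚ) : ℝ)

lemma RR_nonneg (n N i : ℕ) : (0 : ℝ) ≤ ((RR n N i : ℚ) : ℝ) := by
  have : 0 ≤ RR n N i := by unfold RR; positivity
  exact_mod_cast this

lemma PEr_nonneg (n N i : ℕ) : 0 ≤ PEr n N i := by
  have := RR_nonneg n N i
  unfold PEr
  positivity

lemma pert {n N : ℕ} (hN : 1 ≤ N) (hn : n = 24 * N + 1) (u : ℕ → ℚ) (hu : Pc n u)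
    {i j : ℕ} (hi : i < 60 * N) (hj : j < 60 * N) :
    |∑ c ∈ Finset.Icc 1 5, ((rho n c (Row n N i * Row n N j) : ℚ) : ℝ) * ((u c : ℝ) - lamB c)| ^ 2 ≤
      PEr n N i * PEr n N j := by
  set A : ℝ := 589824 * (n : ℝ) ^ 20 * 2 ^ (10 * n) * (((Mr n N i : ℚ) : ℝ) * ((Mr n N j : ℚ) : ℝ)) with hA
  have hMi : (0 : ℝ) ≤ ((Mr n N i : ℚ) : ℝ) := by exact_mod_cast Mr_nonneg n N i
  have hMj : (0 : ℝ) ≤ ((Mr n N j : ℚ) : ℝ) := by exact_mod_cast Mr_nonneg n N j
  have hA0 : 0 ≤ A := by rw [hA]; positivity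
  have hr : ∀ c : ℕ, 1 ≤ c → |((rho n c (Row n N i * Row n N j) : ℚ) : ℝ)| ≤ A := by
    intro c hc
    have h1 := rho_le hN hn hi hj c hc
    have h2 : ((|rho n c (Row n N i * Row n N j)| : ℚ) : ℝ) ≤
        ((589824 * (n : ℚ) ^ 20 * 2 ^ (10 * n) * (Mr n N i * Mr n N j) : ℚ) : ℝ) := by
      exact_mod_cast h1
    push_cast at h2
    exact h2
  have hodd : ∀ c : ℕ, Odd c → rho n c (Row n N i * Row n N j) = 0 := by
    intro c h
    unfold rho
    exact B1_sym n _ h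
  have hsum : ∑ c ∈ Finset.Icc 1 5, ((rho n c (Row n N i * Row n N j) : ℚ) : ℝ) * ((u c : ℝ) - lamB c) =
      ((rho n 2 (Row n N i * Row n N j) : ℚ) : ℝ) * ((u 2 : ℝ) - lamB 2) +
      ((rho n 4 (Row n N i * Row n N j) : ℚ) : ℝ) * ((u 4 : ℝ) - lamB 4) := by
    have e : Finset.Icc 1 5 = ({1, 2, 3, 4, 5} : Finset ℕ) := by decide
    rw [e]
    rw [Finset.sum_insert (by decide), Finset.sum_insert (by decide), Finset.sum_insert (by decide),
      Finset.sum_insert (by decide), Finset.sum_singleton, hodd 1 (by decide), hodd 3 (by decide),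
      hodd 5 (by decide)]
    simp
  have h2 : |(u 2 : ℝ) - lamB 2| ≤ Real.exp (-(22 * n)) := by rw [abs_sub_comm]; exact hu.1
  have h4 : |(u 4 : ℝ) - lamB 4| ≤ Real.exp (-(22 * n)) := by rw [abs_sub_comm]; exact hu.2
  have hb : |∑ c ∈ Finset.Icc 1 5, ((rho n c (Row n N i * Row n N j) : ℚ) : ℝ) * ((u c : ℝ) - lamB c)| ≤
      2 * (A * Real.exp (-(22 * n))) := by
    rw [hsum]
    refine (abs_add_le _ _).trans ?_
    rw [abs_mul, abs_mul]
    have t2 := mul_le_mul (hr 2 (by norm_num)) h2 (abs_nonneg _) hA0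
    have t4 := mul_le_mul (hr 4 (by norm_num)) h4 (abs_nonneg _) hA0
    linarith
  refine (pow_le_pow_left₀ (abs_nonneg _) hb 2).trans ?_
  have hi2 : ((Mr n N i : ℚ) : ℝ) ^ 2 ≤ ((RR n N i : ℚ) : ℝ) := by exact_mod_cast Mr_sq hi
  have hj2 : ((Mr n N j : ℚ) : ℝ) ^ 2 ≤ ((RR n N j : ℚ) : ℝ) := by exact_mod_cast Mr_sq hj
  have e1 : (2 * (A * Real.exp (-(22 * n)))) ^ 2 =
      (1179648 * (n : ℝ) ^ 20 * 2 ^ (10 * n) * Real.exp (-(22 * n))) ^ 2 *
        (((Mr n N i : ℚ) : ℝ) ^ 2 * ((Mr n N j : ℚ) : ℝ) ^ 2) := by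
    rw [hA]; ring
  have e2 : PEr n N i * PEr n N j = (1179648 * (n : ℝ) ^ 20 * 2 ^ (10 * n) * Real.exp (-(22 * n))) ^ 2 *
        (((RR n N i : ℚ) : ℝ) * ((RR n N j : ℚ) : ℝ)) := by
    unfold PEr; ring
  rw [e1, e2]
  apply mul_le_mul_of_nonneg_left _ (by positivity)
  exact mul_le_mul hi2 hj2 (by positivity) (RR_nonneg _ _ _)

lemma GG_spec {n N : ℕ} : ∀ j < 28 * N, (GG n N j).Monic ∧ (GG n N j).natDegree = j := by
  intro j hj
  obtain ⟨_, h2, _⟩ := G7a.loc_spec hj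
  exact ⟨G7a.PA_monic _ _ _ _, by unfold GG; rw [G7a.PA_deg]; exact h2⟩

lemma sq_add_le {s t a b c d : ℝ} (hs : 0 ≤ s) (ht : 0 ≤ t) (ha : 0 ≤ a) (hb : 0 ≤ b) (hc : 0 ≤ c)
    (hd : 0 ≤ d) (h1 : s ^ 2 ≤ a * b) (h2 : t ^ 2 ≤ c * d) : (s + t) ^ 2 ≤ (a + c) * (b + d) := by
  have h3 : 2 * (s * t) ≤ a * d + b * c := by
    have h4 : (2 * (s * t)) ^ 2 ≤ (a * d + b * c) ^ 2 := by
      have h5 : s ^ 2 * t ^ 2 ≤ (a * b) * (c * d) := mul_le_mul h1 h2 (by positivity) (by positivity)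
      nlinarith [sq_nonneg (a * d - b * c)]
    exact le_of_pow_le_pow_left₀ two_ne_zero (by positivity) h4
  nlinarith

lemma entry' {n N : ℕ} (hN : 100 ≤ N) (hn : n = 24 * N + 1) (u : ℕ → ℚ) (hu : Pc n u)
    (al : ℕ → ℝ) (BH : ℝ) (hBH : 0 ≤ BH)
    (hal : ∀ j < 28 * N, ∀ y : ℝ, wt n N y * ‖aeval (xz n (32 * N) y) (ZZ n (32 * N) * GG n N j)‖ ^ 2 ≤ Real.exp (al j))
    (hH : ∀ y : ℝ, wt n N y * ‖aeval (xz n (32 * N) y) (ZZ n (32 * N) * HH n N)‖ ^ 2 ≤ BH)
    {i j : ℕ} (hi : i < 60 * N) (hj : j < 60 * N) :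
    |((NL n u (Row n N i * Row n N j) : ℚ) : ℝ)| ^ 2 ≤
      (G7b.Ar n N al BH i + PEr n N i) * (G7b.Ar n N al BH j + PEr n N j) := by
  have hbi := G7b.br_nonneg (N := N) (al := al) hBH i
  have hbj := G7b.br_nonneg (N := N) (al := al) hBH j
  set B := Real.sqrt (G7b.br N al BH i * G7b.br N al BH j) with hB
  have hB0 : 0 ≤ B := Real.sqrt_nonneg _
  have hBsq : B ^ 2 = G7b.br N al BH i * G7b.br N al BH j := Real.sq_sqrt (mul_nonneg hbi hbj)
  have hdeg : (Row n N i * Row n N j).natDegree ≤ 5 * n - 7 := by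
    have h1 := G7b.Pr_deg (n := n) (G := GG n N) GG_spec hi
    have h2 := G7b.Pr_deg (n := n) (G := GG n N) GG_spec hj
    have h3 := natDegree_mul_le (p := G7b.Pr n N (GG n N) i) (q := G7b.Pr n N (GG n N) j)
    unfold Row
    omega
  have key' : |Del n (32 * N) (Row n N i * Row n N j)| ≤ 4 * B := by
    apply Del_le (by omega) (by omega) _ hdeg
    intro y
    have hy : (0 : ℝ) < 1 + y ^ 2 := by positivity
    rw [← div_eq_mul_inv, le_div_iff₀ hy, map_mul, norm_mul]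
    have p1 := G7b.Pr_bound (G := GG n N) hal hH hi y
    have p2 := G7b.Pr_bound (G := GG n N) hal hH hj y
    have hw := G7b.wt_nonneg n N y
    have e1 : ‖Rn n (32 * N) y‖ * ‖xz n (32 * N) y‖ ^ 7 *
        (‖aeval (xz n (32 * N) y) (Row n N i)‖ * ‖aeval (xz n (32 * N) y) (Row n N j)‖) *
        Real.exp (-(Real.pi * |y|)) * (1 + y ^ 2) =
        wt n N y * (‖aeval (xz n (32 * N) y) (Row n N i)‖ * ‖aeval (xz n (32 * N) y) (Row n N j)‖) := by
      unfold wt; ring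
    rw [e1]
    apply le_of_pow_le_pow_left₀ two_ne_zero hB0
    rw [hBsq]
    calc (wt n N y * (‖aeval (xz n (32 * N) y) (Row n N i)‖ * ‖aeval (xz n (32 * N) y) (Row n N j)‖)) ^ 2
        = (wt n N y * ‖aeval (xz n (32 * N) y) (Row n N i)‖ ^ 2) *
          (wt n N y * ‖aeval (xz n (32 * N) y) (Row n N j)‖ ^ 2) := by ring
      _ ≤ _ := mul_le_mul p1 p2 (by positivity) hbi
  have hzs := G7b.zone_sum (n := n) (N := N) (G := GG n N) i j
  have hreal := B1_real' (n := n) (T := 32 * N) (by omega) u (Row n N i * Row n N j) hdeg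
  have hpert := pert (by omega) hn u hu hi hj
  set D : ℝ := Del n (32 * N) (Row n N i * Row n N j) with hD
  set E : ℝ := ∑ c ∈ Finset.Icc 1 5, ((rho n c (Row n N i * Row n N j) : ℚ) : ℝ) * ((u c : ℝ) - lamB c) with hE
  set x : ℝ := ((NL n u (Row n N i * Row n N j) : ℚ) : ℝ) with hx
  set z : ℝ := ((∑ t ∈ Finset.range (32 * N), (-1) ^ t * wh n t *
    (G7b.Pr n N (GG n N) i * G7b.Pr n N (GG n N) j).eval (xh n t) : ℚ) : ℝ) with hz
  have hxe : x = z + D + E := by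
    have h1 : x - z = D + E := by
      rw [hx, hz, ← Rat.cast_sub]
      exact hreal
    linarith
  have hAi := G7b.br_le_Ar (n := n) (N := N) (al := al) (BH := BH) i
  have hAj := G7b.br_le_Ar (n := n) (N := N) (al := al) (BH := BH) j
  have hAi0 := G7b.Ar_nonneg (n := n) (N := N) (al := al) hBH i
  have hAj0 := G7b.Ar_nonneg (n := n) (N := N) (al := al) hBH j
  have h0 : |z + D| ^ 2 ≤ G7b.Ar n N al BH i * G7b.Ar n N al BH j := by
    have hzD : |z + D| ≤ |z| + |D| := abs_add_le z D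
    by_cases h : i = j ∧ i < 32 * N
    · rw [if_pos h] at hzs
      obtain ⟨rfl, h2⟩ := h
      have hB' : B = G7b.br N al BH i := by
        rw [hB]
        exact Real.sqrt_mul_self hbi
      have h3 : |z + D| ≤ G7b.Ar n N al BH i := by
        rw [hB'] at key'
        unfold G7b.Ar
        unfold G7b.br at key'
        rw [if_pos h2] at key' ⊢
        linarith
      have h4 := pow_le_pow_left₀ (abs_nonneg (z + D)) h3 2
      rw [pow_two (G7b.Ar n N al BH i)] at h4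
      exact h4
    · rw [if_neg h] at hzs
      have h3 : |z + D| ≤ 4 * B := by linarith
      calc |z + D| ^ 2 ≤ (4 * B) ^ 2 := pow_le_pow_left₀ (abs_nonneg _) h3 2
        _ = (4 * G7b.br N al BH i) * (4 * G7b.br N al BH j) := by rw [mul_pow, hBsq]; ring
        _ ≤ _ := mul_le_mul hAi hAj (by positivity) (by linarith)
  have hxs : |x| ≤ |z + D| + |E| := by
    rw [hxe]
    exact abs_add_le _ _
  refine (pow_le_pow_left₀ (abs_nonneg _) hxs 2).trans ?_
  exact sq_add_le (abs_nonneg _) (abs_nonneg _) hAi0 hAj0 (PEr_nonneg _ _ _) (PEr_nonneg _ _ _) h0 hpert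

/-- the determinant inequality at close rational points -/
theorem bnd {n N : ℕ} (hN : 100 ≤ N) (hn : n = 24 * N + 1) (u : ℕ → ℚ) (hu : Pc n u)
    (al : ℕ → ℝ) (BH : ℝ) (hBH : 0 ≤ BH)
    (hal : ∀ j < 28 * N, ∀ y : ℝ,
        wt n N y * ‖aeval (xz n (32 * N) y) (ZZ n (32 * N) * GG n N j)‖ ^ 2 ≤ Real.exp (al j) / 2)
    (hal1 : ∀ j < 28 * N, PEr n N (32 * N + j) ≤ Real.exp (al j))
    (hH : ∀ y : ℝ, wt n N y * ‖aeval (xz n (32 * N) y) (ZZ n (32 * N) * HH n N)‖ ^ 2 ≤ BH / 2)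
    (hH1 : ∀ i < 32 * N, PEr n N i ≤ BH) :
      |((DET n u (60 * N) : ℚ) : ℝ)| * |((VD n (32 * N) : ℚ) : ℝ)| *
        ((∏ l ∈ Finset.range (32 * N), (HH n N).eval (xh n l) : ℚ) : ℝ) ^ 2 ≤
      ((60 * N).factorial : ℝ) * (∏ l ∈ Finset.range (32 * N), (Dz n N l + 16 * BH)) *
        ∏ j ∈ Finset.range (28 * N), (4 * Real.exp (al j)) := by
  have h7 := A7_gram_zone (NL n u) (60 * N) (32 * N) (xh n) (fun i _ j _ h => G7b.xh_ne n h)
    (HH n N) (G7b.HH_spec n N).1 (by rw [(G7b.HH_spec n N).2]; ring) (GG n N)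
    (fun j hj => GG_spec j (by omega)) (G7b.Pr n N (GG n N))
    (fun i hi => by unfold G7b.Pr; rw [if_pos hi]; rfl)
    (fun i h1 h2 => by unfold G7b.Pr; rw [if_neg (by omega)]; rfl)
  have hVD : ∏ i ∈ Finset.range (32 * N), ∏ l ∈ (Finset.range (32 * N)).erase i, (xh n i - xh n l) =
      VD n (32 * N) := by
    unfold VD ZE
    apply Finset.prod_congr rfl
    intro i _
    rw [eval_prod]
    simp
  rw [hVD] at h7
  have hdet : |((DET n u (60 * N) : ℚ) : ℝ)| * |((VD n (32 * N) : ℚ) : ℝ)| *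
        ((∏ l ∈ Finset.range (32 * N), (HH n N).eval (xh n l) : ℚ) : ℝ) ^ 2 =
      |(Matrix.of fun i j : Fin (60 * N) => ((NL n u (Row n N i * Row n N j) : ℚ) : ℝ)).det| := by
    have h8 : ((|(Matrix.of fun i j : Fin (60 * N) => NL n u (Row n N i * Row n N j)).det| : ℚ) : ℝ) =
        ((|DET n u (60 * N)| * |VD n (32 * N)| *
          (∏ l ∈ Finset.range (32 * N), (HH n N).eval (xh n l)) ^ 2 : ℚ) : ℝ) := by
      unfold Row
      rw [h7]
      rfl
    rw [Rat.cast_mul, Rat.cast_mul, Rat.cast_pow, Rat.cast_abs, Rat.cast_abs, Rat.cast_abs] at h8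
    rw [← h8]
    congr 1
    have := RingHom.map_det (Rat.castHom ℝ)
      (Matrix.of fun i j : Fin (60 * N) => NL n u (Row n N i * Row n N j))
    simp only [Rat.coe_castHom] at this
    rw [this]
    congr 1
  rw [hdet]
  set al' : ℕ → ℝ := fun j => al j - Real.log 2 with hal'
  have hexp : ∀ j, Real.exp (al' j) = Real.exp (al j) / 2 := by
    intro j
    rw [hal']
    simp only
    rw [Real.exp_sub, Real.exp_log (by norm_num)]
  have hAr0 := fun i => G7b.Ar_nonneg (n := n) (N := N) (al := al') (BH := BH / 2) (by linarith) i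
  have hA4 := Pool.Agent.H336R2.HD.A4_abs_det (60 * N)
    (Matrix.of fun i j : Fin (60 * N) => ((NL n u (Row n N i * Row n N j) : ℚ) : ℝ))
    (fun i => G7b.Ar n N al' (BH / 2) i + PEr n N i)
    (fun i => by
      have := hAr0 i
      have := PEr_nonneg n N i
      linarith) (by
      intro i j
      simp only [Matrix.of_apply]
      exact entry' hN hn u hu al' (BH / 2) (by linarith)
        (fun j hj y => by rw [hexp]; exact hal j hj y) hH i.2 j.2)
  refine hA4.trans ?_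
  have e : 60 * N = 32 * N + 28 * N := by ring
  rw [mul_assoc]
  apply mul_le_mul_of_nonneg_left _ (by positivity)
  rw [e, Finset.prod_range_add]
  apply mul_le_mul
  · apply Finset.prod_le_prod
    · intro i _
      have := hAr0 i
      have := PEr_nonneg n N i
      linarith
    · intro i hi
      have h1 := hH1 i (Finset.mem_range.1 hi)
      unfold G7b.Ar
      rw [if_pos (Finset.mem_range.1 hi)]
      linarith
  · apply Finset.prod_le_prod
    · intro i _
      have := hAr0 (32 * N + i)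
      have := PEr_nonneg n N (32 * N + i)
      linarith
    · intro i hi
      unfold G7b.Ar
      rw [if_neg (by omega), Nat.add_sub_cancel_left, hexp]
      have h1 := hal1 i (Finset.mem_range.1 hi)
      have h2 := Real.exp_pos (al i)
      linarith
  · apply Finset.prod_nonneg
    intro i _
    have := hAr0 (32 * N + i)
    have := PEr_nonneg n N (32 * N + i)
    linarith
  · apply Finset.prod_nonneg
    intro i _
    have h3 : 0 ≤ Dz n N i := G7b.Dz_nonneg n N i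
    linarith

end

end Pool.Agent.Y931.BP
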