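import Pool.Agent.H256R2.BM.Defs
import Pool.Agent.TH957.WM.Coef

/-!
# Exponential bounds for the coefficients of the linear forms in `1, β(2), β(4)`
-/

open Polynomial Pool.Agent.H337R2 Pool.Agent.H216R2.BB Pool.Agent.H256R2.BM Pool.Agent.TH957

namespace Pool.Agent.Y931.BP

noncomputable section

set_option autoImplicit false

lemma AB_mono {c c' A A' : ℚ} {f : PowerSeries ℚ} (h : AB c A f) (hc : 0 ≤ c) (hcc : c ≤ c') (hA : 0 ≤ A)
    (hAA : A ≤ A') : AB c' A' f := by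
  intro j
  refine (h j).trans ?_
  exact mul_le_mul hAA (pow_le_pow_left₀ hc hcc j) (by positivity) (hA.trans hAA)

lemma AB_add {c A A' : ℚ} {f g : PowerSeries ℚ} (h : AB c A f) (h' : AB c A' g) : AB c (A + A') (f + g) := by
  intro j
  rw [map_add, add_mul]
  exact (abs_add_le _ _).trans (add_le_add (h j) (h' j))

lemma AB_neg {c A : ℚ} {f : PowerSeries ℚ} (h : AB c A f) : AB c A (-f) := by
  intro j
  rw [map_neg, abs_neg]
  exact h j

lemma AB_quad {A β γ : ℚ} (h1 : 1 ≤ A) (hβ : |β| ≤ A) (hγ : |γ| ≤ A) :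
    AB 1 A (PowerSeries.X ^ 2 + PowerSeries.C β * PowerSeries.X + PowerSeries.C γ) := by
  intro j
  rw [one_pow, mul_one, map_add, map_add, PowerSeries.coeff_C_mul, PowerSeries.coeff_X_pow, PowerSeries.coeff_C,
    PowerSeries.coeff_X]
  rcases j with _ | _ | _ | j
  · simpa using hγ
  · simpa using hβ
  · simpa using h1
  · simp only [Nat.add_eq_zero_iff, one_ne_zero, and_false, if_false]
    rw [if_neg (by omega), if_neg (by omega)]
    simp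
    linarith

lemma TS_xp (n k : ℕ) : TS (-(k : ℚ)) (xp n) =
    PowerSeries.X ^ 2 + PowerSeries.C (2 * (n : ℚ) - 2 * k) * PowerSeries.X +
      PowerSeries.C (-(k * (2 * (n : ℚ) - k))) := by
  unfold xp
  rw [map_mul, TS_X, TS_lin]
  have e : PowerSeries.C (2 * (n : ℚ) - 2 * k) =
      PowerSeries.C (-(k : ℚ)) + PowerSeries.C (-(k : ℚ) + ((2 * n : ℕ) : ℚ)) := by
    rw [← map_add]
    congr 1
    push_cast
    ring
  have e2 : PowerSeries.C (-(k * (2 * (n : ℚ) - k))) =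
      PowerSeries.C (-(k : ℚ)) * PowerSeries.C (-(k : ℚ) + ((2 * n : ℕ) : ℚ)) := by
    rw [← map_mul]
    congr 1
    push_cast
    ring
  rw [e, e2]
  ring

/-- linear factors `x - α` -/
lemma AB_lin {n k : ℕ} (hn : 2 ≤ n) (hk : k ≤ 2 * n) {α A : ℚ} (hα : 0 ≤ α) (hA : (n : ℚ) ^ 2 + α ≤ A) :
    AB 1 A (TS (-(k : ℚ)) ((X - C α).comp (xp n))) := by
  have hn1 : (2 : ℚ) ≤ n := by exact_mod_cast hn
  have hk1 : (k : ℚ) ≤ 2 * n := by exact_mod_cast hk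
  have hk0 : (0 : ℚ) ≤ k := by positivity
  have hx0 : 0 ≤ (k : ℚ) * (2 * n - k) := mul_nonneg hk0 (by linarith)
  have hx1 : (k : ℚ) * (2 * n - k) ≤ n ^ 2 := by nlinarith [sq_nonneg ((k : ℚ) - n)]
  have e : TS (-(k : ℚ)) ((X - C α).comp (xp n)) = PowerSeries.X ^ 2 +
      PowerSeries.C (2 * (n : ℚ) - 2 * k) * PowerSeries.X + PowerSeries.C (-(k * (2 * (n : ℚ) - k)) - α) := by
    rw [sub_comp, X_comp, C_comp, (TS (-(k : ℚ))).map_sub, TS_C, TS_xp, map_sub PowerSeries.C _ α]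
    ring
  rw [e]
  apply AB_quad
  · nlinarith
  · rw [abs_le]
    constructor <;> nlinarith
  · rw [abs_le]
    constructor <;> linarith

lemma AB_X {n k : ℕ} (hn : 2 ≤ n) (hk : k ≤ 2 * n) : AB 1 ((n : ℚ) ^ 2) (TS (-(k : ℚ)) (X.comp (xp n))) := by
  have h := AB_lin (α := 0) (A := (n : ℚ) ^ 2) hn hk le_rfl (by linarith)
  rwa [C_0, sub_zero] at h

lemma AB_Lin {n k : ℕ} (hn : 2 ≤ n) (hk : k ≤ 2 * n) :
    AB 1 ((n : ℚ) ^ 2) (TS (-(k : ℚ)) ((G7a.Lin n).comp (xp n))) := by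
  have hn1 : (2 : ℚ) ≤ n := by exact_mod_cast hn
  have hk1 : (k : ℚ) ≤ 2 * n := by exact_mod_cast hk
  have hk0 : (0 : ℚ) ≤ k := by positivity
  have hx0 : 0 ≤ (k : ℚ) * (2 * n - k) := mul_nonneg hk0 (by linarith)
  have hx1 : (k : ℚ) * (2 * n - k) ≤ n ^ 2 := by nlinarith [sq_nonneg ((k : ℚ) - n)]
  have e : TS (-(k : ℚ)) ((G7a.Lin n).comp (xp n)) = PowerSeries.X ^ 2 +
      PowerSeries.C (2 * (n : ℚ) - 2 * k) * PowerSeries.X +
        PowerSeries.C (-(k * (2 * (n : ℚ) - k)) + (n : ℚ) ^ 2) := by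
    unfold G7a.Lin
    rw [add_comp, X_comp, C_comp, (TS (-(k : ℚ))).map_add, TS_C, TS_xp, map_add PowerSeries.C _ ((n : ℚ) ^ 2)]
    ring
  rw [e]
  apply AB_quad
  · nlinarith
  · rw [abs_le]
    constructor <;> nlinarith
  · rw [abs_le]
    constructor <;> linarith

lemma g_bd (b : ℕ) : 0 ≤ 2 * (g1 b ^ 2 - g2 b ^ 2) ∧ 0 ≤ (g1 b ^ 2 + g2 b ^ 2) ^ 2 ∧
    1 + 2 * (g1 b ^ 2 - g2 b ^ 2) + (g1 b ^ 2 + g2 b ^ 2) ^ 2 ≤ 45 := by
  match b with
  | 0 => simp only [g1, g2]; norm_num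
  | 1 => simp only [g1, g2]; norm_num
  | 2 => simp only [g1, g2]; norm_num
  | (b + 3) => simp only [g1, g2]; norm_num

lemma AB_QB {n k : ℕ} (hn : 2 ≤ n) (hk : k ≤ 2 * n) (b : ℕ) :
    AB 2 (45 * (n : ℚ) ^ 4) (TS (-(k : ℚ)) ((G7a.QB n b).comp (xp n))) := by
  have hL := AB_Lin hn hk
  have hn0 : (0 : ℚ) ≤ (n : ℚ) ^ 2 := by positivity
  obtain ⟨h1, h2, h3⟩ := g_bd b
  have e0 : G7a.QB n b = G7a.Lin n ^ 2 - C (2 * (g1 b ^ 2 - g2 b ^ 2) * (n : ℚ) ^ 2) *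
        G7a.Lin n + C ((g1 b ^ 2 + g2 b ^ 2) ^ 2 * (n : ℚ) ^ 4) := rfl
  rw [e0, add_comp, sub_comp, pow_comp, mul_comp, C_comp, C_comp, map_add, map_sub, map_pow, map_mul, TS_C, TS_C]
  have a1 := AB.pow zero_le_one hn0 hL 2
  have a1' : AB 2 (((n : ℚ) ^ 2) ^ 2) (TS (-(k : ℚ)) ((G7a.Lin n).comp (xp n)) ^ 2) := by
    have := a1
    norm_num at this
    exact this
  have a2 : AB 0 (2 * (g1 b ^ 2 - g2 b ^ 2) * (n : ℚ) ^ 2) (PowerSeries.C (2 * (g1 b ^ 2 - g2 b ^ 2) * (n : ℚ) ^ 2)) :=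
    AB.C (by rw [abs_of_nonneg (by positivity)])
  have a3 := AB.mul le_rfl zero_le_one (by positivity) hn0 a2 hL
  have a3' := AB_mono a3 (by norm_num) (show (0 + 1 : ℚ) ≤ 2 by norm_num) (by positivity) le_rfl
  have a4 : AB 0 ((g1 b ^ 2 + g2 b ^ 2) ^ 2 * (n : ℚ) ^ 4) (PowerSeries.C ((g1 b ^ 2 + g2 b ^ 2) ^ 2 * (n : ℚ) ^ 4)) :=
    AB.C (by rw [abs_of_nonneg (by positivity)])
  have a4' := AB_mono a4 (by norm_num) (show (0 : ℚ) ≤ 2 by norm_num) (by positivity) le_rfl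
  have a5 := AB_add (AB_add a1' (AB_neg a3')) a4'
  rw [← sub_eq_add_neg] at a5
  refine AB_mono a5 (by norm_num) le_rfl (by positivity) ?_
  have e1 : ((n : ℚ) ^ 2) ^ 2 + 2 * (g1 b ^ 2 - g2 b ^ 2) * (n : ℚ) ^ 2 * (n : ℚ) ^ 2 +
      (g1 b ^ 2 + g2 b ^ 2) ^ 2 * (n : ℚ) ^ 4 =
      (1 + 2 * (g1 b ^ 2 - g2 b ^ 2) + (g1 b ^ 2 + g2 b ^ 2) ^ 2) * (n : ℚ) ^ 4 := by ring
  rw [e1]
  exact mul_le_mul_of_nonneg_right h3 (by positivity)

/-! ### products -/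

/-- local bounds -/
def Lc (n k e : ℕ) (M : ℚ) (Q : ℚ[X]) : Prop := 0 ≤ M ∧ AB (e : ℚ) M (TS (-(k : ℚ)) (Q.comp (xp n)))

lemma Lc.one (n k : ℕ) : Lc n k 0 1 1 := by
  refine ⟨zero_le_one, ?_⟩
  rw [one_comp, map_one, Nat.cast_zero]
  exact AB.one

lemma Lc.mul {n k e e' : ℕ} {M M' : ℚ} {P Q : ℚ[X]} (hP : Lc n k e M P) (hQ : Lc n k e' M' Q) :
    Lc n k (e + e') (M * M') (P * Q) := by
  refine ⟨mul_nonneg hP.1 hQ.1, ?_⟩
  rw [mul_comp, map_mul]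
  push_cast
  exact AB.mul (by positivity) (by positivity) hP.1 hQ.1 hP.2 hQ.2

lemma Lc.pow {n k e : ℕ} {M : ℚ} {P : ℚ[X]} (hP : Lc n k e M P) (m : ℕ) : Lc n k (m * e) (M ^ m) (P ^ m) := by
  induction m with
  | zero =>
    rw [zero_mul, pow_zero, pow_zero]
    exact Lc.one n k
  | succ m ih =>
    rw [add_mul, one_mul, pow_succ, pow_succ]
    exact ih.mul hP

lemma Lc.prod {n k : ℕ} {ι : Type} (s : Finset ι) (e : ι → ℕ) (M : ι → ℚ) (P : ι → ℚ[X])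
    (h : ∀ i ∈ s, Lc n k (e i) (M i) (P i)) : Lc n k (∑ i ∈ s, e i) (∏ i ∈ s, M i) (∏ i ∈ s, P i) := by
  classical
  induction s using Finset.induction_on with
  | empty => rw [Finset.sum_empty, Finset.prod_empty, Finset.prod_empty]; exact Lc.one n k
  | insert a s ha ih =>
    rw [Finset.sum_insert ha, Finset.prod_insert ha, Finset.prod_insert ha]
    exact (h a (Finset.mem_insert_self _ _)).mul (ih fun i hi => h i (Finset.mem_insert_of_mem hi))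

lemma Lc.mono {n k e e' : ℕ} {M M' : ℚ} {P : ℚ[X]} (h : Lc n k e M P) (he : e ≤ e') (hM : M ≤ M') :
    Lc n k e' M' P :=
  ⟨h.1.trans hM, AB_mono h.2 (by positivity) (by exact_mod_cast he) h.1 hM⟩

lemma Lc_lin {n k : ℕ} (hn : 2 ≤ n) (hk : k ≤ 2 * n) (l : ℕ) :
    Lc n k 1 (((n : ℚ) + l + 1 / 2) ^ 2) (X - C (xh n l)) := by
  refine ⟨sq_nonneg _, ?_⟩
  rw [Nat.cast_one]
  apply AB_lin hn hk
  · unfold xh; positivity
  · unfold xh
    exact le_of_eq (by ring)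

/-- the product of the factors of the zone -/
lemma zone_prod (n N : ℕ) :
    ∏ l ∈ Finset.range (32 * N), ((n : ℚ) + l + 1 / 2) ^ 2 ≤ ((n : ℚ) + 16 * N) ^ (64 * N) := by
  set a : ℕ → ℚ := fun l => (n : ℚ) + l + 1 / 2 with ha
  have h1 : ∏ l ∈ Finset.range (32 * N), a (32 * N - 1 - l) = ∏ l ∈ Finset.range (32 * N), a l :=
    Finset.prod_range_reflect a (32 * N)
  have h2 : ∏ l ∈ Finset.range (32 * N), a l ^ 2 =
      ∏ l ∈ Finset.range (32 * N), (a l * a (32 * N - 1 - l)) := by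
    rw [Finset.prod_mul_distrib, h1, ← Finset.prod_mul_distrib]
    exact Finset.prod_congr rfl fun l _ => by ring
  have h3 : ∏ l ∈ Finset.range (32 * N), (a l * a (32 * N - 1 - l)) ≤
      ∏ l ∈ Finset.range (32 * N), ((n : ℚ) + 16 * N) ^ 2 := by
    apply Finset.prod_le_prod
    · intro l _
      rw [ha]
      positivity
    · intro l hl
      rw [Finset.mem_range] at hl
      have e : ((32 * N - 1 - l : ℕ) : ℚ) = 32 * N - 1 - l := by
        rw [Nat.cast_sub (by omega), Nat.cast_sub (by omega)]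
        push_cast
        ring
      simp only [ha]
      rw [e]
      nlinarith [sq_nonneg ((l : ℚ) + 1 / 2 - 16 * N)]
  show ∏ l ∈ Finset.range (32 * N), a l ^ 2 ≤ _
  rw [h2]
  refine h3.trans (le_of_eq ?_)
  rw [Finset.prod_const, Finset.card_range, ← pow_mul]
  congr 1
  ring

lemma Lc_ZZ {n k N : ℕ} (hn : 2 ≤ n) (hk : k ≤ 2 * n) :
    Lc n k (32 * N) (((n : ℚ) + 16 * N) ^ (64 * N)) (ZZ n (32 * N)) := by
  unfold ZZ
  have h := Lc.prod (n := n) (k := k) (Finset.range (32 * N)) (fun _ => 1)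
    (fun l => ((n : ℚ) + l + 1 / 2) ^ 2) (fun l => X - C (xh n l)) fun l _ => Lc_lin hn hk l
  exact h.mono (by simp) (zone_prod n N)

lemma Lc_ZE {n k N i : ℕ} (hn : 2 ≤ n) (hk : k ≤ 2 * n) (hi : i < 32 * N) :
    Lc n k (32 * N) (((n : ℚ) + 16 * N) ^ (64 * N)) (ZE n (32 * N) i) := by
  unfold ZE
  have h := Lc.prod (n := n) (k := k) ((Finset.range (32 * N)).erase i) (fun _ => 1)
    (fun l => ((n : ℚ) + l + 1 / 2) ^ 2) (fun l => X - C (xh n l)) fun l _ => Lc_lin hn hk l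
  refine h.mono ?_ ?_
  · rw [Finset.sum_const, smul_eq_mul, mul_one]
    exact (Finset.card_le_card (Finset.erase_subset _ _)).trans (by simp)
  · refine le_trans ?_ (zone_prod n N)
    rw [← Finset.mul_prod_erase (Finset.range (32 * N)) _ (Finset.mem_range.2 hi)]
    have h1 : (1 : ℚ) ≤ ((n : ℚ) + i + 1 / 2) ^ 2 := by
      apply one_le_pow₀
      have : (2 : ℚ) ≤ n := by exact_mod_cast hn
      have : (0 : ℚ) ≤ i := by positivity
      linarith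
    have h2 : 0 ≤ ∏ l ∈ (Finset.range (32 * N)).erase i, ((n : ℚ) + l + 1 / 2) ^ 2 :=
      Finset.prod_nonneg fun _ _ => sq_nonneg _
    nlinarith

lemma Lc_QBprod {n k N : ℕ} (hn : 2 ≤ n) (hk : k ≤ 2 * n) (b : ℕ) :
    Lc n k (2 * (G7a.ho b * N)) ((45 * (n : ℚ) ^ 4) ^ (G7a.ho b * N))
      (∏ i ∈ Finset.range b, G7a.QB n i ^ (sg i * N)) := by
  have h0 : ∀ i, Lc n k 2 (45 * (n : ℚ) ^ 4) (G7a.QB n i) := fun i => ⟨by positivity, by
    have := AB_QB hn hk i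
    exact_mod_cast this⟩
  have h := Lc.prod (n := n) (k := k) (Finset.range b) (fun i => sg i * N * 2)
    (fun i => (45 * (n : ℚ) ^ 4) ^ (sg i * N)) (fun i => G7a.QB n i ^ (sg i * N)) fun i _ => (h0 i).pow _
  refine h.mono (le_of_eq ?_) (le_of_eq ?_)
  · unfold G7a.ho
    rw [Finset.sum_mul, Finset.mul_sum]
    exact Finset.sum_congr rfl fun i _ => by ring
  · rw [Finset.prod_pow_eq_pow_sum]
    congr 1
    unfold G7a.ho
    rw [Finset.sum_mul]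

/-- the local bounds of the rows -/
def Mr (n N i : ℕ) : ℚ :=
  if i < 32 * N then ((n : ℚ) + 16 * N) ^ (64 * N) * (45 * (n : ℚ) ^ 4) ^ (14 * N)
  else ((n : ℚ) + 16 * N) ^ (64 * N) *
    ((45 * (n : ℚ) ^ 4) ^ (G7a.ho (G7a.loc N (i - 32 * N)).1 * N + (G7a.loc N (i - 32 * N)).2 / 2) *
      ((n : ℚ) ^ 2) ^ ((G7a.loc N (i - 32 * N)).2 % 2))

/-- the number of the factors outside of the zone -/
def sr (N i : ℕ) : ℕ := if i < 32 * N then 28 * N else i - 32 * N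

/-- the squares of the local bounds -/
def RR (n N i : ℕ) : ℚ := ((n : ℚ) + 16 * N) ^ (128 * N) * 45 ^ sr N i * (n : ℚ) ^ (4 * sr N i)

lemma Mr_nonneg (n N i : ℕ) : 0 ≤ Mr n N i := by
  unfold Mr
  split_ifs <;> positivity

lemma Mr_sq {n N i : ℕ} (hi : i < 60 * N) : Mr n N i ^ 2 ≤ RR n N i := by
  unfold Mr RR sr
  split_ifs with h
  · apply le_of_eq
    have a1 : (((n : ℚ) + 16 * N) ^ (64 * N)) ^ 2 = ((n : ℚ) + 16 * N) ^ (128 * N) := by
      rw [← pow_mul]; congr 1; ring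
    have a2 : ((45 * (n : ℚ) ^ 4) ^ (14 * N)) ^ 2 = 45 ^ (28 * N) * (n : ℚ) ^ (4 * (28 * N)) := by
      rw [← pow_mul, mul_pow, ← pow_mul]
      congr 2 <;> ring
    rw [mul_pow, a1, a2, mul_assoc]
  · obtain ⟨h1, h2, h3⟩ := G7a.loc_spec (N := N) (i := i - 32 * N) (by omega)
    set s := i - 32 * N with hs
    set b := (G7a.loc N s).1 with hb
    set j := (G7a.loc N s).2 with hj
    set a := G7a.ho b * N + j / 2 with ha
    have h4 : 2 * a + j % 2 = s := by omega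
    have e1 : (((n : ℚ) + 16 * N) ^ (64 * N) * ((45 * (n : ℚ) ^ 4) ^ a * ((n : ℚ) ^ 2) ^ (j % 2))) ^ 2 =
        ((n : ℚ) + 16 * N) ^ (128 * N) * 45 ^ (2 * a) * (n : ℚ) ^ (4 * s) := by
      have a1 : (((n : ℚ) + 16 * N) ^ (64 * N)) ^ 2 = ((n : ℚ) + 16 * N) ^ (128 * N) := by
        rw [← pow_mul]; congr 1; ring
      have a2 : ((45 * (n : ℚ) ^ 4) ^ a) ^ 2 = 45 ^ (2 * a) * (n : ℚ) ^ (8 * a) := by
        rw [← pow_mul, mul_pow, ← pow_mul]
        congr 2 <;> ring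
      have a3 : (((n : ℚ) ^ 2) ^ (j % 2)) ^ 2 = (n : ℚ) ^ (4 * (j % 2)) := by
        rw [← pow_mul, ← pow_mul]; congr 1; ring
      have a4 : (n : ℚ) ^ (4 * s) = (n : ℚ) ^ (8 * a) * (n : ℚ) ^ (4 * (j % 2)) := by
        rw [← pow_add]; congr 1; omega
      rw [mul_pow, mul_pow, a1, a2, a3, a4]
      ring
    rw [e1]
    have h5 : (45 : ℚ) ^ (2 * a) ≤ 45 ^ s := pow_le_pow_right₀ (by norm_num) (by omega)
    gcongr

lemma Lc_Row {n k N i : ℕ} (hn : 2 ≤ n) (hk : k ≤ 2 * n) (hi : i < 60 * N) :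
    Lc n k (60 * N) (Mr n N i) (Row n N i) := by
  unfold Row G7b.Pr Mr
  split_ifs with h
  · have h1 := Lc_ZE (N := N) hn hk h
    have h2 := Lc_QBprod (N := N) hn hk 4
    have h3 := h1.mul h2
    rw [G7a.ho4] at h3
    exact h3.mono (by omega) le_rfl
  · obtain ⟨h1, h2, h3⟩ := G7a.loc_spec (N := N) (i := i - 32 * N) (by omega)
    have a1 := Lc_ZZ (N := N) hn hk
    have a2 := Lc_QBprod (N := N) hn hk (G7a.loc N (i - 32 * N)).1
    have a3 : Lc n k 2 (45 * (n : ℚ) ^ 4) (G7a.QB n (G7a.loc N (i - 32 * N)).1) := ⟨by positivity, by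
      have := AB_QB hn hk (G7a.loc N (i - 32 * N)).1
      exact_mod_cast this⟩
    have a4 : Lc n k 1 ((n : ℚ) ^ 2) (G7a.Lin n) := ⟨by positivity, by
      have := AB_Lin hn hk
      exact_mod_cast this⟩
    have a5 := a1.mul ((a2.mul (a3.pow ((G7a.loc N (i - 32 * N)).2 / 2))).mul
      (a4.pow ((G7a.loc N (i - 32 * N)).2 % 2)))
    rw [← pow_add] at a5
    exact a5.mono (by omega) le_rfl

/-! ### the coefficients -/

lemma poles {n k : ℕ} (hk : k ∈ sB n) :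
    ((2 * n).factorial : ℚ) ^ 5 * ∏ m ∈ (sB n).erase k, (|-(k : ℚ) + m|⁻¹) ^ 5 ≤ 2 ^ (10 * n) := by
  have e1 : ∏ m ∈ (sB n).erase k, (|-(k : ℚ) + m|⁻¹) ^ 5 = ∏ m ∈ sB n, ((WM.gd k m)⁻¹) ^ 5 := by
    rw [← Finset.mul_prod_erase (sB n) _ hk]
    have : WM.gd k k = 1 := by simp [WM.gd]
    rw [this, inv_one, one_pow, one_mul]
    apply Finset.prod_congr rfl
    intro m hm
    rw [Finset.mem_erase] at hm
    unfold WM.gd
    rw [if_neg hm.1]
  have e2 : sB n = Finset.Icc 0 (0 + 2 * n) := by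
    ext m
    unfold sB
    rw [Finset.mem_range, Finset.mem_Icc]
    omega
  rw [e1, e2, Finset.prod_pow, ← mul_pow]
  have h := WM.fact_le k 0 (2 * n)
  have h0 : 0 ≤ ((2 * n).factorial : ℚ) * ∏ m ∈ Finset.Icc 0 (0 + 2 * n), (WM.gd k m)⁻¹ :=
    mul_nonneg (by positivity) (Finset.prod_nonneg fun m _ => (inv_pos.2 (WM.gd_pos k m)).le)
  refine (pow_le_pow_left₀ h0 h 5).trans (le_of_eq ?_)
  rw [← pow_mul]
  congr 1
  ring

lemma pa_le {n k e : ℕ} (hn : 8 ≤ n) (hk : k ∈ sB n) {Q : ℚ[X]} {M : ℚ} (hQ : Lc n k e M Q) (he : e ≤ 5 * n)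
    (c : ℕ) (hc : 1 ≤ c) : |pa (sB n) m5 (PPn n * EE n Q) k c| ≤ 2 ^ (10 * n) * (2 * n + 2) * (n : ℚ) ^ 14 * M * (16 * n) ^ 4 := by
  have hn8 : (8 : ℚ) ≤ n := by exact_mod_cast hn
  have hkn : k ≤ 2 * n := by
    have := hk
    unfold sB at this
    rw [Finset.mem_range] at this
    omega
  have hkq : (k : ℚ) ≤ 2 * n := by exact_mod_cast hkn
  have hk0 : (0 : ℚ) ≤ k := by positivity
  have hM0 := hQ.1
  unfold pa
  split_ifs with hi
  swap
  · rw [abs_zero]; positivity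
  unfold pfc PPn EE VV
  rw [(TS (-(k : ℚ))).map_mul, (TS (-(k : ℚ))).map_mul, TS_C]
  have e2 : AB 1 ((2 : ℚ) * n + 2) (TS (-(k : ℚ)) (C 2 * X + C ((2 * n : ℕ) : ℚ))) := by
    rw [show (C (2 : ℚ) : ℚ[X]) = 2 from map_ofNat C 2, TS_lin2]
    apply WM.AB_lin2 (by linarith)
    rw [abs_le]
    push_cast
    constructor <;> linarith
  have e1 : AB 0 (((2 * n).factorial : ℚ) ^ 5) (PowerSeries.C (((2 * n).factorial : ℚ) ^ 5)) :=
    AB.C (by rw [abs_of_nonneg (by positivity)])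
  have hX : Lc n k 1 ((n : ℚ) ^ 2) X := ⟨by positivity, by
    have := AB_X (by omega : 2 ≤ n) hkn
    exact_mod_cast this⟩
  have e3 := ((hX.pow 7).mul hQ).2
  have e4 : AB (∑ m ∈ (sB n).erase k, (((5 : ℕ) : ℚ) * 1))
      (∏ m ∈ (sB n).erase k, (|-(k : ℚ) + m|⁻¹) ^ 5)
      (∏ m ∈ (sB n).erase k, iv (-(k : ℚ) + m) ^ m5 m) := by
    apply AB.prod
    · intro i _; positivity
    · intro i _; positivity
    · intro m hm
      rw [Finset.mem_erase] at hm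
      exact AB.pow zero_le_one (by positivity) (WM.AB_iv (WM.abs_ge_one hm.1)) 5
  have hM7 : 0 ≤ ((n : ℚ) ^ 2) ^ 7 * M := by positivity
  have e5 := AB.mul (by positivity) (by positivity) (by positivity) (by positivity)
    (AB.mul (by positivity) (by positivity) (by positivity) hM7
      (AB.mul le_rfl zero_le_one (by positivity) (by positivity) e1 e2) e3) e4
  refine (e5 _).trans ?_
  have a1 := poles hk
  have hcard : ((sB n).erase k).card = 2 * n := by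
    rw [Finset.card_erase_of_mem hk]
    unfold sB
    rw [Finset.card_range]
    rfl
  have a2 : (0 + 1 + ((7 * 1 + e : ℕ) : ℚ) + ∑ m ∈ (sB n).erase k, (((5 : ℕ) : ℚ) * 1)) ≤ 16 * n := by
    rw [Finset.sum_const, hcard, nsmul_eq_mul]
    have : (e : ℚ) ≤ 5 * n := by exact_mod_cast he
    push_cast
    linarith
  have a20 : 0 ≤ (0 + 1 + ((7 * 1 + e : ℕ) : ℚ) + ∑ m ∈ (sB n).erase k, (((5 : ℕ) : ℚ) * 1)) := by positivity
  have a3 : (0 + 1 + ((7 * 1 + e : ℕ) : ℚ) + ∑ m ∈ (sB n).erase k, (((5 : ℕ) : ℚ) * 1)) ^ (m5 k - c) ≤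
      (16 * (n : ℚ)) ^ 4 := by
    refine (pow_le_pow_left₀ a20 a2 _).trans ?_
    apply pow_le_pow_right₀ (by linarith)
    have : m5 k = 5 := rfl
    omega
  have a5 : ((2 * n).factorial : ℚ) ^ 5 * (2 * n + 2) * (((n : ℚ) ^ 2) ^ 7 * M) *
      (∏ m ∈ (sB n).erase k, (|-(k : ℚ) + m|⁻¹) ^ 5) =
      (((2 * n).factorial : ℚ) ^ 5 * ∏ m ∈ (sB n).erase k, (|-(k : ℚ) + m|⁻¹) ^ 5) * ((2 * n + 2) * (n : ℚ) ^ 14 * M) := by
    ring
  rw [a5]
  have a6 : 0 ≤ ((2 : ℚ) * n + 2) * (n : ℚ) ^ 14 * M := by positivity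
  calc _ ≤ 2 ^ (10 * n) * ((2 * n + 2) * (n : ℚ) ^ 14 * M) * (16 * (n : ℚ)) ^ 4 := by
        apply mul_le_mul (mul_le_mul_of_nonneg_right a1 a6) a3 (by positivity) (by positivity)
    _ = _ := by ring

/-- the coefficients of the linear forms -/
theorem rho_le {n N : ℕ} (hN : 1 ≤ N) (hn : n = 24 * N + 1) {i j : ℕ} (hi : i < 60 * N) (hj : j < 60 * N)
    (c : ℕ) (hc : 1 ≤ c) : |rho n c (Row n N i * Row n N j)| ≤
      589824 * (n : ℚ) ^ 20 * 2 ^ (10 * n) * (Mr n N i * Mr n N j) := by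
  have hn8 : 8 ≤ n := by omega
  have hnq : (8 : ℚ) ≤ n := by exact_mod_cast hn8
  have hMi := Mr_nonneg n N i
  have hMj := Mr_nonneg n N j
  have hterm : ∀ k ∈ sB n, |(-1) ^ k * pa (sB n) m5 (PPn n * EE n (Row n N i * Row n N j)) k c| ≤
      2 ^ (10 * n) * (2 * n + 2) * (n : ℚ) ^ 14 * (Mr n N i * Mr n N j) * (16 * n) ^ 4 := by
    intro k hk
    have hk2 : k ≤ 2 * n := by
      have := hk
      unfold sB at this
      rw [Finset.mem_range] at this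
      omega
    rw [abs_mul, abs_pow, abs_neg, abs_one, one_pow, one_mul]
    have h1 := (Lc_Row (n := n) (k := k) (by omega) hk2 hi).mul (Lc_Row (n := n) (k := k) (by omega) hk2 hj)
    exact pa_le hn8 hk h1 (by omega) c hc
  unfold rho
  refine (Finset.abs_sum_le_sum_abs _ _).trans ?_
  refine (Finset.sum_le_sum hterm).trans ?_
  rw [Finset.sum_const, nsmul_eq_mul]
  unfold sB
  rw [Finset.card_range]
  push_cast
  have h3 : ((2 : ℚ) * n + 1) * (2 * n + 2) ≤ 9 * n ^ 2 := by nlinarith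
  have h4 : 0 ≤ 2 ^ (10 * n) * (n : ℚ) ^ 14 * (Mr n N i * Mr n N j) * (16 * n) ^ 4 := by positivity
  calc (2 * (n : ℚ) + 1) * (2 ^ (10 * n) * (2 * n + 2) * (n : ℚ) ^ 14 * (Mr n N i * Mr n N j) * (16 * n) ^ 4)
      = ((2 : ℚ) * n + 1) * (2 * n + 2) * (2 ^ (10 * n) * (n : ℚ) ^ 14 * (Mr n N i * Mr n N j) * (16 * n) ^ 4) := by
        ring
    _ ≤ 9 * n ^ 2 * (2 ^ (10 * n) * (n : ℚ) ^ 14 * (Mr n N i * Mr n N j) * (16 * n) ^ 4) :=
        mul_le_mul_of_nonneg_right h3 h4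
    _ = _ := by ring

end

end Pool.Agent.Y931.BP
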