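import Pool.Agent.Y931.BP.Pert
import Pool.Agent.H256R2.BM.ROW

/-!
# The bounds of the rows, compared with the size of the perturbation
-/

open Polynomial Pool.Agent.H337R2 Filter Topology Pool.Agent.H216R2.BB Pool.Agent.H256R2.BM

namespace Pool.Agent.Y931.BP

noncomputable section

set_option autoImplicit false

/-- comparison of two logarithms through nearly equal powers -/
lemma cmpr (a b x y : ℕ) (r : ℝ) (hx : 0 < x) (hy : 0 < y) (h : (x : ℝ) ^ a ≤ (1 + r) * (y : ℝ) ^ b) :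
    a * Real.log x ≤ b * Real.log y + r := by
  have hx' : (0 : ℝ) < (x : ℝ) := by exact_mod_cast hx
  have hy' : (0 : ℝ) < (y : ℝ) := by exact_mod_cast hy
  have h1 : Real.log ((x : ℝ) ^ a / (y : ℝ) ^ b) ≤ (x : ℝ) ^ a / (y : ℝ) ^ b - 1 :=
    Real.log_le_sub_one_of_pos (by positivity)
  have h2 : (x : ℝ) ^ a / (y : ℝ) ^ b ≤ 1 + r := by
    rw [div_le_iff₀ (by positivity)]
    exact h
  rw [Real.log_div (by positivity) (by positivity), Real.log_pow, Real.log_pow] at h1
  linarith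

lemma num_logs : Real.log (5 / 3) ≤ 0.5109 ∧ Real.log 45 ≤ 3.807 ∧ -9.44 ≤ Phi0 ∧
    10 * Real.log 2 ≤ 6.932 ∧ 0.693 ≤ Real.log 2 := by
  have h2 := Real.log_two_gt_d9
  have h2' := Real.log_two_lt_d9
  have l43 : Real.log (4 / 3) = 2 * Real.log 2 - Real.log 3 := by
    rw [Real.log_div (by norm_num) (by norm_num), show (4 : ℝ) = 2 ^ 2 by norm_num, Real.log_pow]
    push_cast; ring
  have l103 : Real.log (10 / 3) = Real.log 2 + Real.log 5 - Real.log 3 := by
    rw [Real.log_div (by norm_num) (by norm_num), show (10 : ℝ) = 2 * 5 by norm_num,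
      Real.log_mul (by norm_num) (by norm_num)]
  have l143 : Real.log (14 / 3) = Real.log 2 + Real.log 7 - Real.log 3 := by
    rw [Real.log_div (by norm_num) (by norm_num), show (14 : ℝ) = 2 * 7 by norm_num,
      Real.log_mul (by norm_num) (by norm_num)]
  have l53 : Real.log (5 / 3) = Real.log 5 - Real.log 3 := Real.log_div (by norm_num) (by norm_num)
  have l45 : Real.log 45 = 2 * Real.log 3 + Real.log 5 := by
    rw [show (45 : ℝ) = 3 ^ 2 * 5 by norm_num, Real.log_mul (by norm_num) (by norm_num), Real.log_pow]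
    push_cast; ring
  have h3u := cmpr 12 19 3 2 (13644 / 1000000) (by norm_num) (by norm_num) (by norm_num)
  have h3l := cmpr 19 12 2 3 (-(13459 / 1000000)) (by norm_num) (by norm_num) (by norm_num)
  have h5u := cmpr 28 65 5 2 (9742 / 1000000) (by norm_num) (by norm_num) (by norm_num)
  have h5l := cmpr 65 28 2 5 (-(9647 / 1000000)) (by norm_num) (by norm_num) (by norm_num)
  have h7l := cmpr 73 26 2 7 (6099 / 1000000) (by norm_num) (by norm_num) (by norm_num)
  push_cast at h3l h3u h5l h5u h7l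
  refine ⟨?_, ?_, ?_, ?_, ?_⟩
  · rw [l53]; linarith
  · rw [l45]; linarith
  · unfold Phi0
    rw [l43, l103, l143]
    linarith
  · linarith
  · linarith

/-- the polynomial part of the perturbation -/
def cP : ℝ := Real.log 1179648

lemma log_PEr {n N i : ℕ} (hN : 1 ≤ N) (hn : n = 24 * N + 1) :
    PEr n N i ≤ Real.exp (cP + 20 * Real.log n + (10 * Real.log 2 - 22) * n +
      128 * N * (Real.log n + Real.log (5 / 3)) + sr N i * (Real.log 45 + 4 * Real.log n)) := by
  have hnr : (n : ℝ) = 24 * N + 1 := by rw [hn]; push_cast; ring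
  have hN0 : (0 : ℝ) ≤ N := by positivity
  have hn0 : (0 : ℝ) < n := by rw [hnr]; linarith
  have h1 : ((n : ℝ) + 16 * N) ^ (128 * N) ≤ (n * (5 / 3)) ^ (128 * N) := by
    apply pow_le_pow_left₀ (by positivity)
    rw [hnr]
    linarith
  have e1 : Real.exp cP = 1179648 := Real.exp_log (by norm_num)
  have e2 : Real.exp (20 * Real.log n) = (n : ℝ) ^ 20 := by
    rw [show (20 : ℝ) = ((20 : ℕ) : ℝ) by norm_num, Real.exp_nat_mul, Real.exp_log hn0]
  have e3 : Real.exp ((10 * Real.log 2 - 22) * n) = 2 ^ (10 * n) * Real.exp (-(22 * n)) := by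
    have : (10 * Real.log 2 - 22) * n = ((10 * n : ℕ) : ℝ) * Real.log 2 + -(22 * n) := by push_cast; ring
    rw [this, Real.exp_add, Real.exp_nat_mul, Real.exp_log (by norm_num)]
  have e4 : Real.exp (128 * N * (Real.log n + Real.log (5 / 3))) = (n * (5 / 3)) ^ (128 * N) := by
    have : 128 * (N : ℝ) * (Real.log n + Real.log (5 / 3)) = ((128 * N : ℕ) : ℝ) * Real.log (n * (5 / 3)) := by
      rw [Real.log_mul hn0.ne' (by norm_num)]
      push_cast; ring
    rw [this, Real.exp_nat_mul, Real.exp_log (by positivity)]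
  have e5 : Real.exp (sr N i * (Real.log 45 + 4 * Real.log n)) = 45 ^ sr N i * (n : ℝ) ^ (4 * sr N i) := by
    have : (sr N i : ℝ) * (Real.log 45 + 4 * Real.log n) = (sr N i : ℝ) * Real.log (45 * (n : ℝ) ^ 4) := by
      rw [Real.log_mul (by norm_num) (by positivity), Real.log_pow]
      push_cast; ring
    rw [this, Real.exp_nat_mul, Real.exp_log (by positivity), mul_pow, ← pow_mul]
  rw [Real.exp_add, Real.exp_add, Real.exp_add, Real.exp_add, e1, e2, e3, e4, e5]
  unfold PEr RR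
  push_cast
  calc 1179648 * (n : ℝ) ^ 20 * 2 ^ (10 * n) * Real.exp (-(22 * n)) *
        (((n : ℝ) + 16 * N) ^ (128 * N) * 45 ^ sr N i * (n : ℝ) ^ (4 * sr N i))
      ≤ 1179648 * (n : ℝ) ^ 20 * 2 ^ (10 * n) * Real.exp (-(22 * n)) *
        ((n * (5 / 3)) ^ (128 * N) * 45 ^ sr N i * (n : ℝ) ^ (4 * sr N i)) := by gcongr
    _ = _ := by ring

/-- the comparison in the blocks -/
lemma block {N : ℕ} (hN : 1 ≤ N) {b h : ℕ} (hb : b ≤ 3) (hh : h ≤ sg b * N) :
    (10 * Real.log 2 - 22) * (24 * N + 1) + 128 * N * Real.log (5 / 3) +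
      (2 * (G7a.ho b * N : ℕ) + 2 * h + 1) * Real.log 45 ≤
    (24 * N + 1) * Phi0 + N * Real.log 2 * ((tb b : ℝ) + (h : ℝ) / ((sg b * N : ℕ) : ℝ) *
      ((tb (b + 1) : ℝ) - tb b)) := by
  obtain ⟨h1, h2, h3, h4, h5⟩ := num_logs
  have hN1 : (1 : ℝ) ≤ N := by exact_mod_cast hN
  have hN0 : (0 : ℝ) < N := by linarith
  have hh0 : (0 : ℝ) ≤ h := by positivity
  have hhr : (h : ℝ) ≤ (sg b : ℝ) * N := by exact_mod_cast hh
  have p1 : 128 * (N : ℝ) * Real.log (5 / 3) ≤ 128 * N * 0.5109 :=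
    mul_le_mul_of_nonneg_left h1 (by positivity)
  have p2 : (2 * ((G7a.ho b * N : ℕ) : ℝ) + 2 * h + 1) * Real.log 45 ≤
      (2 * ((G7a.ho b * N : ℕ) : ℝ) + 2 * h + 1) * 3.807 :=
    mul_le_mul_of_nonneg_left h2 (by positivity)
  have p3 : (24 * (N : ℝ) + 1) * (-9.44) ≤ (24 * N + 1) * Phi0 :=
    mul_le_mul_of_nonneg_left h3 (by positivity)
  have p4 : (10 * Real.log 2) * (24 * (N : ℝ) + 1) ≤ 6.932 * (24 * N + 1) :=
    mul_le_mul_of_nonneg_right h4 (by positivity)
  set τ : ℝ := (h : ℝ) / ((sg b * N : ℕ) : ℝ) with hτ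
  have hsg : (0 : ℝ) < (sg b : ℝ) := by exact_mod_cast G7a.sg_pos b
  have hS : (0 : ℝ) < ((sg b * N : ℕ) : ℝ) := by push_cast; positivity
  have hτh : (h : ℝ) = τ * (sg b * N) := by
    rw [hτ]
    push_cast
    field_simp
  have hτ0 : 0 ≤ τ := by rw [hτ]; positivity
  have hτ1 : τ ≤ 1 := by
    rw [hτ, div_le_one hS]
    push_cast
    exact hhr
  have htb := G7a.tb_mono hb
  have hT : 0 ≤ (tb b : ℝ) + τ * ((tb (b + 1) : ℝ) - tb b) := by
    have : 0 ≤ τ * ((tb (b + 1) : ℝ) - tb b) := mul_nonneg hτ0 (by linarith)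
    positivity
  have p5 : (N : ℝ) * 0.693 * ((tb b : ℝ) + τ * ((tb (b + 1) : ℝ) - tb b)) ≤
      N * Real.log 2 * ((tb b : ℝ) + τ * ((tb (b + 1) : ℝ) - tb b)) := by
    apply mul_le_mul_of_nonneg_right _ hT
    exact mul_le_mul_of_nonneg_left h5 hN0.le
  refine le_trans (by linarith [p1, p2, p4] :
    _ ≤ (6.932 - 22) * (24 * (N : ℝ) + 1) + 128 * N * 0.5109 +
      (2 * ((G7a.ho b * N : ℕ) : ℝ) + 2 * h + 1) * 3.807) ?_
  refine le_trans ?_ (by linarith [p3, p5] : (24 * (N : ℝ) + 1) * (-9.44) +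
    (N : ℝ) * 0.693 * ((tb b : ℝ) + τ * ((tb (b + 1) : ℝ) - tb b)) ≤ _)
  rw [hτh]
  have hNτ0 : 0 ≤ (N : ℝ) * τ := by positivity
  have hNτ1 : (N : ℝ) * τ ≤ N := by nlinarith
  interval_cases b
  · have e0 : G7a.ho 0 = 0 := G7a.ho0
    simp only [sg, tb, e0]
    push_cast
    nlinarith
  · have e0 : G7a.ho 1 = 3 := G7a.ho1
    simp only [sg, tb, e0]
    push_cast
    nlinarith
  · have e0 : G7a.ho 2 = 6 := G7a.ho2
    simp only [sg, tb, e0]
    push_cast
    nlinarith
  · have e0 : G7a.ho 3 = 9 := G7a.ho3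
    simp only [sg, tb, e0]
    push_cast
    nlinarith

theorem rowB : ∃ (C : ℝ) (K N0 : ℕ), 0 < C ∧ 100 ≤ N0 ∧ ∀ N : ℕ, N0 ≤ N → ∀ n : ℕ, n = 24 * N + 1 →
  ∃ al : ℕ → ℝ,
    (∀ j < 28 * N, ∀ y : ℝ,
      wt n N y * ‖aeval (xz n (32 * N) y) (ZZ n (32 * N) * GG n N j)‖ ^ 2 ≤ Real.exp (al j) / 2) ∧
    (∀ j < 28 * N, PEr n N (32 * N + j) ≤ Real.exp (al j)) ∧
    (∀ y : ℝ, wt n N y * ‖aeval (xz n (32 * N) y) (ZZ n (32 * N) * HH n N)‖ ^ 2 ≤ C * (n : ℝ) ^ K * BN n N / 2) ∧
    (∀ i < 32 * N, PEr n N i ≤ C * (n : ℝ) ^ K * BN n N) ∧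
    ∑ j ∈ Finset.range (28 * N), al j ≤ 28 * N * (Real.log C + K * Real.log n + n * Phi0 + 128 * N * Real.log n) +
      2 * (28 * N) ^ 2 * Real.log n + 528 * (N : ℝ) ^ 2 * Real.log 2 := by
  obtain ⟨C0, K0, hC0, h⟩ := G1_main
  have hG2 : G7a.G2S := fun hN hn y b => G2_qb hN hn y b
  have hG3 : G7a.G3S := G3_cert
  have hE1 : 1 ≤ Real.exp |Real.log C0| := Real.one_le_exp (abs_nonneg _)
  have hCE : 1 ≤ C0 * Real.exp |Real.log C0| := by
    have : C0 * Real.exp |Real.log C0| = Real.exp (Real.log C0 + |Real.log C0|) := by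
      rw [Real.exp_add, Real.exp_log hC0]
    rw [this]
    apply Real.one_le_exp
    linarith [neg_abs_le (Real.log C0)]
  refine ⟨3057647616 * (C0 * Real.exp |Real.log C0|), K0 + 24, 100, by positivity, le_rfl, fun N hN n hn =>
      ⟨fun j => G7a.al C0 K0 n N (G7a.loc N j).1 (G7a.loc N j).2 +
        (Real.log 2 + cP + |Real.log C0| + 20 * Real.log n), ?_, ?_, ?_, ?_, ?_⟩⟩
  all_goals
    have hN1 : 1 ≤ N := by omega
    have hnN : (n : ℝ) = 24 * N + 1 := by rw [hn]; push_cast; ring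
    have h1n : (1 : ℝ) ≤ n := by exact_mod_cast (by omega : 1 ≤ n)
    have h0n : (0 : ℝ) < n := by linarith
    have hl : 0 ≤ Real.log n := Real.log_natCast_nonneg n
    have hl2 : 0 ≤ Real.log 2 := Real.log_nonneg (by norm_num)
    have hcP : 0 ≤ cP := Real.log_nonneg (by norm_num)
    have habs := abs_nonneg (Real.log C0)
  · intro j hj y
    obtain ⟨h1, _, h3⟩ := G7a.loc_spec hj
    have h4 := G7a.PA_bound hG2 hG3 hC0 h hN hn h1 h3 y
    refine h4.trans ?_
    have e : Real.exp (G7a.al C0 K0 n N (G7a.loc N j).1 (G7a.loc N j).2) =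
        Real.exp (G7a.al C0 K0 n N (G7a.loc N j).1 (G7a.loc N j).2 + Real.log 2) / 2 := by
      rw [Real.exp_add, Real.exp_log (by norm_num)]
      ring
    rw [e]
    apply div_le_div_of_nonneg_right _ (by norm_num)
    apply Real.exp_le_exp.2
    show _ ≤ G7a.al C0 K0 n N (G7a.loc N j).1 (G7a.loc N j).2 +
        (Real.log 2 + cP + |Real.log C0| + 20 * Real.log n)
    linarith
  · intro j hj
    obtain ⟨h1, h2, h3⟩ := G7a.loc_spec hj
    refine (log_PEr hN1 hn).trans (Real.exp_le_exp.2 ?_)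
    show _ ≤ G7a.al C0 K0 n N (G7a.loc N j).1 (G7a.loc N j).2 +
        (Real.log 2 + cP + |Real.log C0| + 20 * Real.log n)
    have e0 : sr N (32 * N + j) = j := by
      unfold sr
      rw [if_neg (by omega)]
      omega
    rw [e0, G7a.al_eq hN1]
    set b := (G7a.loc N j).1 with hb
    set j' := (G7a.loc N j).2 with hj'
    have hblk := block hN1 (b := b) (h := j' / 2) h1 (by omega)
    have e1 : Real.log (36 * (n : ℝ) ^ 2) = Real.log 36 + 2 * Real.log n := by
      rw [Real.log_mul (by norm_num) (by positivity), Real.log_pow]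
      push_cast; ring
    have hl36 : 0 ≤ Real.log 36 := Real.log_nonneg (by norm_num)
    have hj1 : (j : ℝ) ≤ 2 * ((G7a.ho b * N : ℕ) : ℝ) + 2 * ((j' / 2 : ℕ) : ℝ) + 1 := by
      have : j ≤ 2 * (G7a.ho b * N) + 2 * (j' / 2) + 1 := by omega
      exact_mod_cast this
    have hl45 : 0 ≤ Real.log 45 := Real.log_nonneg (by norm_num)
    have q1 : (j : ℝ) * Real.log 45 ≤ (2 * ((G7a.ho b * N : ℕ) : ℝ) + 2 * ((j' / 2 : ℕ) : ℝ) + 1) * Real.log 45 :=
      mul_le_mul_of_nonneg_right hj1 hl45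
    have q2 : (j : ℝ) * (4 * Real.log n) ≤
        4 * (((2 * (G7a.ho b * N) : ℕ) : ℝ) + 2 * ((j' / 2 : ℕ) : ℝ)) * Real.log n + 4 * Real.log n := by
      have := mul_le_mul_of_nonneg_right hj1 (by positivity : 0 ≤ 4 * Real.log n)
      push_cast at this ⊢
      linarith
    have q3 : 0 ≤ (K0 : ℝ) * Real.log n := by positivity
    have q4 : - |Real.log C0| ≤ Real.log C0 := neg_abs_le _
    rw [e1, hnN]
    rw [hnN] at q2 q3
    rw [hnN] at hl
    nlinarith
  · intro y
    have h5 := G7a.HH_bound hG2 hG3 hC0 h hN hn y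
    refine h5.trans ?_
    have hB0 : 0 ≤ BN n N := by unfold BN; positivity
    have h6 : C0 * (n : ℝ) ^ K0 ≤ 3057647616 * (C0 * Real.exp |Real.log C0|) * (n : ℝ) ^ (K0 + 24) / 2 := by
      have h7 : (n : ℝ) ^ K0 ≤ (n : ℝ) ^ (K0 + 24) := pow_le_pow_right₀ h1n (by omega)
      have h8 : C0 ≤ C0 * Real.exp |Real.log C0| := le_mul_of_one_le_right hC0.le hE1
      have h9 : C0 * (n : ℝ) ^ K0 ≤ (C0 * Real.exp |Real.log C0|) * (n : ℝ) ^ (K0 + 24) :=
        mul_le_mul h8 h7 (by positivity) (by positivity)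
      have h10 : 0 ≤ (C0 * Real.exp |Real.log C0|) * (n : ℝ) ^ (K0 + 24) := by positivity
      linarith
    calc _ ≤ 3057647616 * (C0 * Real.exp |Real.log C0|) * (n : ℝ) ^ (K0 + 24) / 2 * BN n N :=
          mul_le_mul_of_nonneg_right h6 hB0
      _ = _ := by ring
  · intro i hi
    have e0 : sr N i = 28 * N := by
      unfold sr
      rw [if_pos hi]
    have hblk := block hN1 (b := 3) (h := 5 * N) le_rfl le_rfl
    have e1 : sg 3 = 5 := rfl
    have e2 : tb 3 = 22 := rfl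
    have e3 : tb (3 + 1) = 56 := rfl
    rw [e1, e2, e3, G7a.ho3, div_self (by positivity)] at hblk
    have h1 : PEr n N i ≤ Real.exp (cP + (20 * Real.log n + (128 * N * Real.log n + (n * Phi0 +
        (112 * N * Real.log n + 56 * N * Real.log 2))))) := by
      refine (log_PEr hN1 hn).trans (Real.exp_le_exp.2 ?_)
      rw [e0]
      have hl45 : 0 ≤ Real.log 45 := Real.log_nonneg (by norm_num)
      push_cast at hblk ⊢
      rw [hnN]
      nlinarith
    refine h1.trans ?_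
    have f1 : Real.exp cP = 1179648 := Real.exp_log (by norm_num)
    have f2 : Real.exp (20 * Real.log n) = (n : ℝ) ^ 20 := by
      rw [show (20 : ℝ) = ((20 : ℕ) : ℝ) by norm_num, Real.exp_nat_mul, Real.exp_log h0n]
    have f3 : Real.exp (128 * N * Real.log n) = (n : ℝ) ^ (128 * N) := by
      rw [show 128 * (N : ℝ) * Real.log n = ((128 * N : ℕ) : ℝ) * Real.log n by push_cast; ring,
        Real.exp_nat_mul, Real.exp_log h0n]
    have f4 : Real.exp (112 * N * Real.log n) = (n : ℝ) ^ (112 * N) := by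
      rw [show 112 * (N : ℝ) * Real.log n = ((112 * N : ℕ) : ℝ) * Real.log n by push_cast; ring,
        Real.exp_nat_mul, Real.exp_log h0n]
    have f5 : Real.exp (56 * N * Real.log 2) = (2 : ℝ) ^ (56 * N) := by
      rw [show 56 * (N : ℝ) * Real.log 2 = ((56 * N : ℕ) : ℝ) * Real.log 2 by push_cast; ring,
        Real.exp_nat_mul, Real.exp_log (by norm_num)]
    rw [Real.exp_add, Real.exp_add, Real.exp_add, Real.exp_add, Real.exp_add, f1, f2, f3, f4, f5]
    have g1 : (1179648 : ℝ) * (n : ℝ) ^ 20 ≤ 3057647616 * (C0 * Real.exp |Real.log C0|) * (n : ℝ) ^ (K0 + 24) := by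
      have h7 : (n : ℝ) ^ 20 ≤ (n : ℝ) ^ (K0 + 24) := pow_le_pow_right₀ h1n (by omega)
      apply mul_le_mul _ h7 (by positivity) (by positivity)
      linarith
    have hB : BN n N = (n : ℝ) ^ (128 * N) * Real.exp (n * Phi0) * (n : ℝ) ^ (112 * N) * 2 ^ (56 * N) := rfl
    have hB0 : 0 ≤ BN n N := by unfold BN; positivity
    calc _ = (1179648 : ℝ) * (n : ℝ) ^ 20 * BN n N := by rw [hB]; ring
      _ ≤ _ := mul_le_mul_of_nonneg_right g1 hB0
  · have h6 := G7a.sum_al (C := C0) (K := K0) (n := n) (N := N) (by omega)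
    rw [Finset.sum_add_distrib, Finset.sum_const, Finset.card_range, nsmul_eq_mul]
    have e1 : Real.log (36 * (n : ℝ) ^ 2) = Real.log 36 + 2 * Real.log n := by
      rw [Real.log_mul (by norm_num) (by positivity), Real.log_pow]
      push_cast
      ring
    have e2 : Real.log (3057647616 * (C0 * Real.exp |Real.log C0|)) =
        2 * Real.log 36 + Real.log C0 + |Real.log C0| + Real.log 2 + cP := by
      unfold cP
      have : (3057647616 * (C0 * Real.exp |Real.log C0|) : ℝ) =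
          36 ^ 2 * C0 * Real.exp |Real.log C0| * 2 * 1179648 := by ring
      rw [this, Real.log_mul (by positivity) (by norm_num), Real.log_mul (by positivity) (by norm_num),
        Real.log_mul (by positivity) (by positivity), Real.log_mul (by norm_num) hC0.ne',
        Real.log_pow, Real.log_exp]
      push_cast
      ring
    rw [e1] at h6
    rw [e2]
    push_cast at h6 ⊢
    linarith

end

end Pool.Agent.Y931.BP
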